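import Pool.Agent.MWG.Stmts

namespace Pool.Agent.MWG.H15

open Pool.Agent.Helper14_MV Pool.Agent.Helper2_MV Pool.Agent.MVO Pool.Agent.MWL Pool.Agent.MWS
open Pool.Agent.MWG

/-- `x^m t x^q` -/
def W (m q : ℕ) : List ℕ := List.replicate m 0 ++ 2 :: List.replicate q 0

theorem mw_one (c : ℕ → ℕ) : mw 1 c = W (c 0) (c 1) := rfl

theorem app_right {θ : FIC} {m q m' q' : ℕ} (h : RR θ (W m q) (W m' q')) :
    RR θ (W m (q + 1)) (W m' (q' + 1)) := by
  have h1 := RR.append h (RR.refl (β := θ) [0])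
  have e : ∀ m q : ℕ, W m q ++ [0] = W m (q + 1) := by
    intro m q
    unfold W
    rw [List.replicate_succ' (n := q)]
    simp
  rwa [e, e] at h1

theorem app_left {θ : FIC} {m q m' q' : ℕ} (h : RR θ (W m q) (W m' q')) :
    RR θ (W (m + 1) q) (W (m' + 1) q') := by
  have h1 := RR.append (RR.refl (β := θ) [0]) h
  have e : ∀ m q : ℕ, [0] ++ W m q = W (m + 1) q := by
    intro m q
    unfold W
    rw [List.replicate_succ]
    simp
  rwa [e, e] at h1

section
variable {β θ : FIC} (hg : GmdStmt) (hb : ClM β) (hle : β ≤ θ)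
include hg hb hle

theorem norm_q {m q : ℕ} (hm : 1 ≤ m) (hq : 1 ≤ q) : RR θ (W m q) (W m 1) := by
  have h1 := (hg β hb).1 (List.replicate m 0 ++ [2]) [] 0 q 1 (by
    apply List.mem_append_left
    rw [List.mem_replicate]
    exact ⟨by omega, rfl⟩) hq le_rfl
  have e : ∀ q : ℕ, List.replicate m 0 ++ [2] ++ (List.replicate q 0 ++ []) = W m q := by
    intro q
    unfold W
    simp
  rw [e, e] at h1
  exact hle _ _ h1

theorem norm_m {m q : ℕ} (hm : 2 ≤ m) : RR θ (W m q) (W 2 q) := by
  have h1 := (hg β hb).2 0 m 2 hm le_rfl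
  have h2 := RR.append h1 (RR.refl (β := β) (2 :: List.replicate q 0))
  exact hle _ _ h2

theorem to_TT {m q m' q' : ℕ} (h : RR θ (W m q) (W m' q')) (hm : m ≤ 1) (hlt : m < m') :
    TT θ := by
  rcases Nat.eq_zero_or_pos m with h0 | h0
  · subst h0
    have h1 := app_left (app_right h)
    have h2 : RR θ (W 1 (q + 1)) (W 1 1) := norm_q hg hb hle le_rfl (by omega)
    have h3 : RR θ (W (m' + 1) (q' + 1)) (W 2 (q' + 1)) := norm_m hg hb hle (by omega)
    have h4 : RR θ (W 2 (q' + 1)) (W 2 1) := norm_q hg hb hle (by omega) (by omega)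
    exact θ.trans (RR.symm h2) (θ.trans h1 (θ.trans h3 h4))
  · obtain rfl : m = 1 := by omega
    have h1 := app_right h
    have h2 : RR θ (W 1 (q + 1)) (W 1 1) := norm_q hg hb hle le_rfl (by omega)
    have h3 : RR θ (W m' (q' + 1)) (W 2 (q' + 1)) := norm_m hg hb hle (by omega)
    have h4 : RR θ (W 2 (q' + 1)) (W 2 1) := norm_q hg hb hle (by omega) (by omega)
    exact θ.trans (RR.symm h2) (θ.trans h1 (θ.trans h3 h4))

theorem to_EE {m m' q' : ℕ} (h : RR θ (W m 0) (W m' q')) (hq : q' ≠ 0) : EE θ := by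
  have h1 := app_left (app_left h)
  have h2 : RR θ (W (m + 1 + 1) 0) (W 2 0) := norm_m hg hb hle (by omega)
  have h3 : RR θ (W (m' + 1 + 1) q') (W 2 q') := norm_m hg hb hle (by omega)
  have h4 : RR θ (W 2 q') (W 2 1) := norm_q hg hb hle (by omega) (by omega)
  exact θ.trans (RR.symm h2) (θ.trans h1 (θ.trans h3 h4))

end

theorem psh_zero {k i : ℕ} (hi : i ≤ k) (a : ℕ → ℕ) :
    psh k (fun j => if j ≤ i then 0 else 1) a 0 = deg i a := by
  unfold psh deg
  symm
  have h1 : ∑ j ∈ Finset.range (i + 1), a j =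
      ∑ j ∈ Finset.range (i + 1), (if (if j ≤ i then 0 else 1) = 0 then a j else 0) := by
    refine Finset.sum_congr rfl fun j hj => ?_
    have : j ≤ i := Nat.lt_succ_iff.1 (Finset.mem_range.1 hj)
    simp [this]
  rw [h1]
  refine Finset.sum_subset ?_ ?_
  · intro j hj
    rw [Finset.mem_range] at hj ⊢
    omega
  · intro j _ hj
    rw [Finset.mem_range] at hj
    have : ¬ j ≤ i := by omega
    simp [this]

theorem psh_one {k i : ℕ} (a : ℕ → ℕ) :
    psh k (fun j => if j ≤ i then 0 else 1) a 1 = 0 ↔ ∀ j, i < j → j ≤ k → a j = 0 := by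
  unfold psh
  rw [Finset.sum_eq_zero_iff]
  constructor
  · intro h j hj hjk
    have h1 := h j (Finset.mem_range.2 (by omega))
    have : ¬ j ≤ i := by omega
    simpa [this] using h1
  · intro h j hj
    rw [Finset.mem_range] at hj
    by_cases hji : j ≤ i
    · simp [hji]
    · simp only [if_neg hji, if_true]
      exact h j (by omega) (by omega)

theorem rga (hg : GmdStmt) : RgaStmt := by
  intro β θ hb hle hE hT k a a' h i hi
  have hf : BMap k 1 (fun j => if j ≤ i then 0 else 1) := by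
    refine ⟨fun p q hpq _ => ?_, fun p _ => ?_⟩
    · show (if p ≤ i then 0 else 1) ≤ (if q ≤ i then 0 else 1)
      split_ifs <;> omega
    · show (if p ≤ i then 0 else 1) ≤ 1
      split_ifs <;> omega
  have h1 : RR θ (W (psh k (fun j => if j ≤ i then 0 else 1) a 0)
      (psh k (fun j => if j ≤ i then 0 else 1) a 1))
      (W (psh k (fun j => if j ≤ i then 0 else 1) a' 0)
      (psh k (fun j => if j ≤ i then 0 else 1) a' 1)) :=
    (FC.ofFIC θ).push 1 (fun j => if j ≤ i then 0 else 1) hf h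
  rw [psh_zero hi, psh_zero hi] at h1
  constructor
  · by_contra hne
    rcases lt_or_ge (deg i a) (deg i a') with hlt | hge
    · exact hT (to_TT hg hb hle h1 (by omega) hlt)
    · exact hT (to_TT hg hb hle (RR.symm h1) (by omega) (by omega))
  · rw [← psh_one, ← psh_one]
    constructor
    · intro h0
      by_contra hq
      rw [h0] at h1
      exact hE (to_EE hg hb hle h1 hq)
    · intro h0
      by_contra hq
      rw [h0] at h1
      exact hE (to_EE hg hb hle (RR.symm h1) hq)

end Pool.Agent.MWG.H15
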